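import Pool.Agent.H17.UN.Tow

/-!
# Row IMG: the action of the Galois group on the prime divisors
-/

set_option autoImplicit false

open Polynomial
open Pool.Agent.H17.UN

namespace Pool.Agent.H67.UN

namespace IMG

variable {K L : Type} [Field K] [Field L] [Algebra K L] {F Kb Ω : IntermediateField K L} {m : ℕ}
  {A : Fin m → Subalgebra Kb (Fb F Kb)} {i₀ : Fin m} {φ : A i₀ →ₐ[Kb] Kb}

theorem pd_ext {v v' : PrimeDivisor A} (h : v.ord = v'.ord) : v = v' := by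
  cases v; cases v'; subst h; rfl

theorem ai (σ : L ≃ₐ[Ω] L) (x : L) : σ (σ⁻¹ x) = x := by
  rw [← AlgEquiv.mul_apply, mul_inv_cancel, AlgEquiv.one_apply]

theorem ia (σ : L ≃ₐ[Ω] L) (x : L) : σ⁻¹ (σ x) = x := by
  rw [← AlgEquiv.mul_apply, inv_mul_cancel, AlgEquiv.one_apply]

/-- the action on `Fb F Kb` -/
def tr (h : Base Ω A i₀ φ) (σ : L ≃ₐ[Ω] L) (x : Fb F Kb) : Fb F Kb := ⟨σ x, h.fb σ x⟩

theorem tr_coe (h : Base Ω A i₀ φ) (σ : L ≃ₐ[Ω] L) (x : Fb F Kb) : (tr h σ x : L) = σ x := rfl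

theorem tr_mul (h : Base Ω A i₀ φ) (σ : L ≃ₐ[Ω] L) (x y : Fb F Kb) :
    tr h σ (x * y) = tr h σ x * tr h σ y := by
  apply Subtype.ext
  exact map_mul σ (x : L) (y : L)

theorem tr_add (h : Base Ω A i₀ φ) (σ : L ≃ₐ[Ω] L) (x y : Fb F Kb) :
    tr h σ (x + y) = tr h σ x + tr h σ y := by
  apply Subtype.ext
  exact map_add σ (x : L) (y : L)

theorem tr_div (h : Base Ω A i₀ φ) (σ : L ≃ₐ[Ω] L) (x y : Fb F Kb) :
    tr h σ (x / y) = tr h σ x / tr h σ y := by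
  apply Subtype.ext
  exact map_div₀ σ (x : L) (y : L)

theorem tr_zero (h : Base Ω A i₀ φ) (σ : L ≃ₐ[Ω] L) : tr h σ 0 = 0 := by
  apply Subtype.ext
  exact map_zero σ

theorem tr_tr (h : Base Ω A i₀ φ) (σ : L ≃ₐ[Ω] L) (x : Fb F Kb) : tr h σ (tr h σ⁻¹ x) = x := by
  apply Subtype.ext
  exact ai σ (x : L)

theorem tr_tr' (h : Base Ω A i₀ φ) (σ : L ≃ₐ[Ω] L) (x : Fb F Kb) : tr h σ⁻¹ (tr h σ x) = x := by
  apply Subtype.ext
  exact ia σ (x : L)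

theorem tr_ne (h : Base Ω A i₀ φ) (σ : L ≃ₐ[Ω] L) {x : Fb F Kb} (hx : x ≠ 0) :
    tr h σ x ≠ 0 := by
  intro h0
  apply hx
  have h1 := tr_tr' h σ x
  rw [h0, tr_zero] at h1
  exact h1.symm

theorem tr_mem (h : Base Ω A i₀ φ) (σ : L ≃ₐ[Ω] L) (i : Fin m) {x : Fb F Kb} (hx : x ∈ A i) :
    tr h σ x ∈ A i := h.st σ i x (tr h σ x) rfl hx

/-- the image of a prime divisor -/
def push (h : Base Ω A i₀ φ) (σ : L ≃ₐ[Ω] L) (v : PrimeDivisor A) : PrimeDivisor A where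
  ord y := v.ord (tr h σ⁻¹ y)
  ord_zero := by rw [tr_zero, v.ord_zero]
  ord_mul a b ha hb := by rw [tr_mul, v.ord_mul _ _ (tr_ne h _ ha) (tr_ne h _ hb)]
  ord_add a b ha hb hab := by
    rw [tr_add]
    refine v.ord_add _ _ (tr_ne h _ ha) (tr_ne h _ hb) ?_
    rw [← tr_add]
    exact tr_ne h _ hab
  norm := by
    obtain ⟨a, ha⟩ := v.norm
    exact ⟨tr h σ a, by rw [tr_tr', ha]⟩
  centre := by
    obtain ⟨i, h1, h2⟩ := v.centre
    refine ⟨i, fun a ha => h1 _ (tr_mem h _ i ha), fun x hx hx0 => ?_⟩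
    obtain ⟨a, ha, b, hb, hb0, hb1, he⟩ := h2 _ (tr_ne h _ hx) hx0
    refine ⟨tr h σ a, tr_mem h _ i ha, tr h σ b, tr_mem h _ i hb, tr_ne h _ hb0, ?_, ?_⟩
    · rw [tr_tr', hb1]
    · rw [← tr_div, ← he, tr_tr]

theorem img_push (h : Base Ω A i₀ φ) (σ : L ≃ₐ[Ω] L) (v : PrimeDivisor A) :
    Img σ v (push h σ v) := by
  intro x y hxy
  have h1 : y = tr h σ x := Subtype.ext hxy
  show v.ord (tr h σ⁻¹ y) = v.ord x
  rw [h1, tr_tr']

theorem img_iff (h : Base Ω A i₀ φ) (σ : L ≃ₐ[Ω] L) (v v' : PrimeDivisor A) :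
    Img σ v v' ↔ ∀ x, v'.ord (tr h σ x) = v.ord x := by
  constructor
  · intro hi x
    exact hi x _ rfl
  · intro hi x y hxy
    have h1 : y = tr h σ x := Subtype.ext hxy
    rw [h1]
    exact hi x

end IMG

open IMG in
theorem pf_IMG : T_IMG := by
  intro K L _ _ _ F Kb Ω m A i₀ φ h σ v
  refine ⟨⟨push h σ v, img_push h σ v⟩, ⟨push h σ⁻¹ v, ?_⟩, ?_, ?_, ?_, ?_, ?_⟩
  · rw [img_iff h]
    intro x
    show v.ord (tr h σ x) = v.ord (tr h σ⁻¹⁻¹ x)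
    rw [inv_inv]
  · intro v' v'' h1 h2
    rw [img_iff h] at h1 h2
    refine pd_ext (funext fun y => ?_)
    rw [← tr_tr h σ y, h1, h2]
  · intro v' v'' h1 h2
    rw [img_iff h] at h1 h2
    refine pd_ext (funext fun y => ?_)
    rw [← h1, ← h2]
  · intro v' h1
    rw [img_iff h] at h1 ⊢
    intro x
    rw [← h1 (tr h σ⁻¹ x), tr_tr]
  · rintro v' h1 ⟨h2, h3⟩
    rw [img_iff h] at h1
    refine ⟨fun a ha => ?_, fun a ha => ?_⟩
    · rw [← tr_tr h σ a, h1]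
      exact h2 _ (tr_mem h _ i₀ ha)
    · have h4 := h.eqv σ ⟨tr h σ⁻¹ (a : Fb F Kb), tr_mem h _ i₀ a.2⟩ a (by
        have h5 := tr_tr h σ (a : Fb F Kb)
        exact (congrArg Subtype.val h5).symm)
      have h5 : φ ⟨tr h σ⁻¹ (a : Fb F Kb), tr_mem h _ i₀ a.2⟩ ≠ 0 := by
        intro h0
        rw [h0] at h4
        apply ha
        apply Subtype.ext
        rw [h4]
        exact map_zero σ
      have h6 := h3 _ h5
      rw [← tr_tr h σ (a : Fb F Kb), h1]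
      exact h6
  · intro τ v' v'' h1 h2
    rw [img_iff h] at h1 h2 ⊢
    intro x
    have h3 : tr h (τ * σ) x = tr h τ (tr h σ x) := by
      apply Subtype.ext
      exact AlgEquiv.mul_apply τ σ (x : L)
    rw [h3, h2, h1]

end Pool.Agent.H67.UN
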